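import Pool.Agent.H509R3.Nas.Tools

/-!
# Task Lim: the limit of a definable type
-/

namespace Pool.Agent.H509R3.Nas

open FirstOrder FirstOrder.Language
open Pool.Agent.Helper672.Plain (LSet Mem Zermelo IsPair IsOrdPair)
open Pool.Agent.H635Amen (ZF)
open Pool.Agent.H310Cards
open Pool.Agent.H310Top
open Pool.Agent.H839R3.Nas

universe u

/-- span of a finite set, as a finite subgroup -/
theorem span_finite (e : Finset V) :
    ((Submodule.span (ZMod 2) (e : Set V)).toAddSubgroup : Set V).Finite := by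
  have : Module.Finite (ZMod 2) (Submodule.span (ZMod 2) (e : Set V)) :=
    Module.Finite.span_finset _ e
  have : Finite (Submodule.span (ZMod 2) (e : Set V)) := Module.finite_of_finite (ZMod 2)
  exact Set.toFinite _


section

variable {N : Type u} [LSet.Structure N]

/-- `x + h` is in the generic set -/
def Plus (Ad Us x h : N) : Prop :=
  ∃ q p z, IsOrdPair q x h ∧ IsOrdPair p q z ∧ Mem p Ad ∧ Mem z Us

/-- the image of the pattern `G` over some finite set misses `u` -/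
def Miss (D Ad Us G j u : N) : Prop :=
  ∃ b, IsFinite b ∧ (∀ z, Mem z b → Mem z D) ∧
    ∀ x y, App j x y → (∀ h, Mem h b → (Plus Ad Us x h ↔ Mem h G)) → ¬ Mem y u

theorem da_plus {A : Set N} {ι : Type} {a b x h : (ι → N) → N} (ha : TA A a) (hb : TA A b)
    (hx : TA A x) (hh : TA A h) : DA A (fun v => Plus (a v) (b v) (x v) (h v)) := by
  show DA A (fun v => ∃ q p z, IsOrdPair q (x v) (h v) ∧ IsOrdPair p q z ∧ Mem p (a v) ∧
    Mem z (b v))
  exact DA.ex (DA.ex (DA.ex (DA.and (DA.isOrdPair (TA.var _) hx.weak.weak.weak hh.weak.weak.weak)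
    (DA.and (DA.isOrdPair (TA.var _) (TA.var _) (TA.var _))
      (DA.and (DA.mem (TA.var _) ha.weak.weak.weak) (DA.mem (TA.var _) hb.weak.weak.weak))))))

theorem da_miss (D Ad Us G j : N) :
    DA (Set.univ : Set N) (fun v : Fin 1 → N => Miss D Ad Us G j (v 0)) := by
  have hc : ∀ (c : N) {ι : Type}, TA (Set.univ : Set N) (fun _ : ι → N => c) :=
    fun c _ => TA.const (Set.mem_univ c)
  show DA (Set.univ : Set N) (fun v : Fin 1 → N => ∃ b, IsFinite b ∧
    (∀ z, Mem z b → Mem z D) ∧ ∀ x y, App j x y →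
      (∀ h, Mem h b → (Plus Ad Us x h ↔ Mem h G)) → ¬ Mem y (v 0))
  exact DA.ex (DA.and (DA.isFinite (TA.var _)) (DA.and
    (DA.all (DA.imp (DA.mem (TA.var _) (TA.var _)) (DA.mem (TA.var _) (hc D))))
    (DA.all (DA.all (DA.imp (DA.app (hc j) (TA.var _) (TA.var _)) (DA.imp
      (DA.all (DA.imp (DA.mem (TA.var _) (TA.var _)) (DA.iff (da_plus (hc Ad) (hc Us) (TA.var _)
        (TA.var _)) (DA.mem (TA.var _) (hc G)))))
      (DA.not (DA.mem (TA.var _) (TA.var _)))))))))

variable {U : V → Prop}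

theorem plus_iff (S : SM U N) (x h : V) : Plus S.Ad S.Us (S.pt x) (S.pt h) ↔ U (x + h) := by
  have := S.zf
  constructor
  · rintro ⟨q, p, z, hq, hp, hpA, hz⟩
    obtain ⟨a, b, q', hq', hp'⟩ := (S.mem_Ad p).1 hpA
    obtain ⟨rfl, hz'⟩ := ordPair_inj hp hp'
    obtain ⟨h1, h2⟩ := ordPair_inj hq hq'
    have e1 := S.inj h1
    have e2 := S.inj h2
    subst e1 e2
    obtain ⟨c, hc, hc'⟩ := (S.mem_Us z).1 hz
    have := S.inj (hz'.symm.trans hc')
    rw [this]
    exact hc
  · intro hU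
    obtain ⟨q, hq⟩ := exists_ordPair (S.pt x) (S.pt h)
    obtain ⟨p, hp⟩ := exists_ordPair q (S.pt (x + h))
    exact ⟨q, p, _, hq, hp, (S.mem_Ad p).2 ⟨x, h, q, hq, hp⟩, (S.mem_Us _).2 ⟨_, hU, rfl⟩⟩

/-- a place where the pattern of `w` differs from `g` -/
theorem exists_diff (hE : Ext U) {g : V → Prop} (hg : {v | g v}.Finite) (w : V) :
    ∃ h, U (w + h) ∧ ¬ g h := by
  classical
  obtain ⟨x, hx, hx'⟩ := hE (insert w hg.toFinset) Set.univ
  refine ⟨x, ?_, fun h => ?_⟩
  · rw [add_comm]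
    exact (hx' w (Finset.mem_insert_self _ _)).2 (Set.mem_univ _)
  · exact hx (Finset.mem_insert_of_mem (hg.mem_toFinset.2 h))

/-- existence of the limit point -/
theorem exists_lim (hE : Ext U) (S : SM U N) {k t j : N}
    (hc : IsCompactification k t j S.D) {g : V → Prop} (hg : {v | g v}.Finite) :
    ∃ a, ∀ W : AddSubgroup V, (W : Set V).Finite → InCl S k t j (Pat U W g) a := by
  classical
  have := S.zf
  by_contra hcon
  push Not at hcon
  obtain ⟨G, hG, _⟩ := exists_finset (M := N) (hg.toFinset.image S.pt)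
  have hG' : ∀ h, Mem (S.pt h) G ↔ g h := by
    intro h
    rw [hG, Finset.mem_image]
    constructor
    · rintro ⟨v, hv, hv'⟩
      rw [← S.inj hv']
      exact hg.mem_toFinset.1 hv
    · intro h1
      exact ⟨h, hg.mem_toFinset.2 h1, rfl⟩
  obtain ⟨c, hcs⟩ := sep (da_miss S.D S.Ad S.Us G j) t
  obtain ⟨c', hfin, hsub, hcov⟩ := hc.compact c (fun u hu => ((hcs u).1 hu).1) (by
    intro q hq
    obtain ⟨W, hW, hn⟩ := hcon q
    have hn2 : ¬ (Mem q k ∧ ∀ u, Mem u t → Mem q u →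
      ∃ x ∈ Pat U W g, ∃ y, App j (S.pt x) y ∧ Mem y u) := hn
    push Not at hn2
    obtain ⟨u, hu, hqu, hno⟩ := hn2 hq
    refine ⟨u, (hcs u).2 ⟨hu, ?_⟩, hqu⟩
    obtain ⟨b, hb, hbf⟩ := exists_finset (M := N) (hW.toFinset.image S.pt)
    refine ⟨b, hbf, fun z hz => ?_, fun x y hxy hpat => ?_⟩
    · obtain ⟨w, _, rfl⟩ := Finset.mem_image.1 ((hb z).1 hz)
      exact (S.mem_D _).2 ⟨w, rfl⟩
    · obtain ⟨x0, rfl⟩ := (S.mem_D x).1 (app_dom hc.inj.1 hxy).1
      refine hno x0 (fun h hh => ?_) y hxy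
      have := hpat (S.pt h) ((hb _).2 (Finset.mem_image.2 ⟨h, hW.mem_toFinset.2 hh, rfl⟩))
      rw [plus_iff, hG'] at this
      exact this)
  have hf := S.std c' hfin
  have hmiss : ∀ u, Mem u c' → Miss S.D S.Ad S.Us G j u := fun u hu => ((hcs u).1 (hsub u hu)).2
  choose! b hb using hmiss
  have hBfin : ∀ u, Mem u c' → {v | Mem (S.pt v) (b u)}.Finite := by
    intro u hu
    have h1 := (S.std _ (hb u hu).1).preimage (f := S.pt) S.inj.injOn
    exact h1
  have hB : (⋃ u ∈ {y | Mem y c'}, {v | Mem (S.pt v) (b u)}).Finite :=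
    hf.biUnion fun u hu => hBfin u hu
  obtain ⟨x, _, hx⟩ := hE hB.toFinset {v | g v}
  obtain ⟨y, hy, _⟩ := hc.inj.1.2 (S.pt x) ((S.mem_D _).2 ⟨x, rfl⟩)
  obtain ⟨u, hu, hyu⟩ := hcov y (app_dom hc.inj.1 hy).2
  refine (hb u hu).2.2 (S.pt x) y hy (fun h hh => ?_) hyu
  obtain ⟨h0, rfl⟩ := (S.mem_D h).1 ((hb u hu).2.1 h hh)
  rw [plus_iff, hG']
  exact hx h0 (hB.mem_toFinset.2 (Set.mem_biUnion (x := u) hu hh))

/-- a point of the pattern outside of `W` -/
theorem exists_outside (hE : Ext U) (S : SM U N) {k t j : N} {g : V → Prop}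
    (hg : {v | g v}.Finite) {a : N}
    (ha : ∀ W : AddSubgroup V, (W : Set V).Finite → InCl S k t j (Pat U W g) a)
    (W : Submodule (ZMod 2) V) (hW : (W : Set V).Finite) {u : N} (hu : Mem u t) (hau : Mem a u) :
    ∃ x, x ∉ W ∧ x ∈ Pat U W g ∧ ∃ y, App j (S.pt x) y ∧ Mem y u := by
  classical
  choose d hd using exists_diff hE hg
  set e : Finset V := hW.toFinset ∪ hW.toFinset.image d with he
  obtain ⟨_, h2⟩ := ha _ (span_finite e)
  obtain ⟨x, hx, y, hy, hyu⟩ := h2 u hu hau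
  have hWe : ∀ w ∈ W, w ∈ Submodule.span (ZMod 2) (e : Set V) := fun w hw =>
    Submodule.subset_span (by
      rw [he]
      exact Finset.mem_coe.2 (Finset.mem_union_left _ (hW.mem_toFinset.2 hw)))
  refine ⟨x, fun hxW => ?_, fun h hh => hx h (hWe h hh), y, hy, hyu⟩
  have h3 : d x ∈ Submodule.span (ZMod 2) (e : Set V) := Submodule.subset_span (by
    rw [he]
    exact Finset.mem_coe.2 (Finset.mem_union_right _ (Finset.mem_image.2
      ⟨x, hW.mem_toFinset.2 hxW, rfl⟩)))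
  exact (hd x).2 ((hx (d x) h3).1 (hd x).1)

/-- Two points with the same pattern over `W`, outside of `W`, are conjugate over `W`. -/
theorem exists_aut (hH : Homog U) (W : Submodule (ZMod 2) V) (hW : (W : Set V).Finite)
    {g : V → Prop} {x x' : V} (hx : x ∉ W) (hx' : x' ∉ W) (hp : x ∈ Pat U W g)
    (hp' : x' ∈ Pat U W g) : ∃ h : V ≃+ V, Aut U W h ∧ h x = x' := by
  let f : V →ₗ.[ZMod 2] V := ⟨W, W.subtype⟩
  let F := f.supSpanSingleton x x' hx
  have hdom : F.domain = W ⊔ Submodule.span (ZMod 2) {x} := rfl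
  have : Finite W := hW
  have : Module.Finite (ZMod 2) W := Module.Finite.of_finite
  have : Module.Finite (ZMod 2) (W ⊔ Submodule.span (ZMod 2) {x} : Submodule (ZMod 2) V) :=
    Submodule.finite_sup _ _
  have : Finite (W ⊔ Submodule.span (ZMod 2) {x} : Submodule (ZMod 2) V) :=
    Module.finite_of_finite (ZMod 2)
  have hfin : Finite F.domain.toAddSubgroup := by
    change Finite (W ⊔ Submodule.span (ZMod 2) {x} : Submodule (ZMod 2) V)
    infer_instance
  have hform : ∀ z : F.domain, ∃ (w : V) (hw : w ∈ W) (c : ZMod 2),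
      (z : V) = w + c • x ∧ F z = w + c • x' := by
    rintro ⟨z, hz⟩
    obtain ⟨w, hw, y, hy, rfl⟩ := Submodule.mem_sup.1 hz
    obtain ⟨c, rfl⟩ := Submodule.mem_span_singleton.1 hy
    refine ⟨w, hw, c, rfl, ?_⟩
    exact LinearPMap.supSpanSingleton_apply_mk f x x' hx w hw c
  have c01 : ∀ c : ZMod 2, c = 0 ∨ c = 1 := by decide
  have hinj : Function.Injective F.toFun.toAddMonoidHom := by
    rw [injective_iff_map_eq_zero]
    intro z hz
    obtain ⟨w, hw, c, h1, h2⟩ := hform z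
    have h3 : w + c • x' = 0 := h2.symm.trans hz
    rcases c01 c with rfl | rfl
    · have h4 : w = 0 := by simpa using h3
      apply Subtype.ext
      rw [h1, h4]
      simp
    · exfalso
      apply hx'
      have h4 : x' = -w := by
        rw [one_smul] at h3
        exact eq_neg_of_add_eq_zero_right h3
      rw [h4]
      exact W.neg_mem hw
  have hU : ∀ z : F.domain, U (F z) ↔ U z := by
    intro z
    obtain ⟨w, hw, c, h1, h2⟩ := hform z
    rw [h1, h2]
    rcases c01 c with rfl | rfl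
    · simp
    · rw [one_smul, one_smul, add_comm w x', add_comm w x]
      exact (hp' w hw).trans (hp w hw).symm
  obtain ⟨h, h1, h2⟩ := hH F.domain.toAddSubgroup F.toFun.toAddMonoidHom hfin hinj hU
  refine ⟨h, ⟨h1, fun v hv => ?_⟩, ?_⟩
  · have hv' : v ∈ F.domain := Submodule.mem_sup_left hv
    have h3 := h2 ⟨v, hv'⟩
    have h4 : F ⟨v, hv'⟩ = v := LinearPMap.supSpanSingleton_apply_of_mem f x' hx ⟨v, hv'⟩ hv
    exact h3.trans h4
  · have hx1 : x ∈ F.domain := Submodule.mem_sup_right (Submodule.mem_span_singleton_self x)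
    have h3 := h2 ⟨x, hx1⟩
    have h4 : F ⟨x, hx1⟩ = x' := LinearPMap.supSpanSingleton_apply_self f x' hx
    exact h3.trans h4

theorem unique_lim (hE : Ext U) (hH : Homog U) (S : SM U N) {k t j : N}
    (hc : IsCompactification k t j S.D) {g : V → Prop} (hg : {v | g v}.Finite) {a b : N}
    (ha : ∀ W : AddSubgroup V, (W : Set V).Finite → InCl S k t j (Pat U W g) a)
    (hb : ∀ W : AddSubgroup V, (W : Set V).Finite → InCl S k t j (Pat U W g) b) : b = a := by
  classical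
  have := S.zf
  by_contra hne
  have hak : Mem a k := (ha ⊥ (by simp)).1
  have hbk : Mem b k := (hb ⊥ (by simp)).1
  obtain ⟨v, u, hv, hu, hbv, hau, hdis⟩ := hc.haus b a hbk hak hne
  obtain ⟨e1, he1⟩ := S.sup_ex u
  obtain ⟨e2, he2⟩ := S.sup_ex j
  set e := e1 ∪ e2 with he
  set W := Submodule.span (ZMod 2) (e : Set V) with hWdef
  have hW : (W : Set V).Finite := span_finite e
  obtain ⟨x, hxW, hxP, y, hy, hyu⟩ := exists_outside hE S hg ha W hW hu hau
  obtain ⟨x', hxW', hxP', y', hy', hyv⟩ := exists_outside hE S hg hb W hW hv hbv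
  obtain ⟨h, hh, hhx⟩ := exists_aut hH W hW hxW hxW' hxP hxP'
  have hAut : Aut U e h := ⟨hh.1, fun w hw => hh.2 w (Submodule.subset_span hw)⟩
  have hp : DZ (fun v : Fin 3 → N => ∃ y, App (v 0) (v 1) y ∧ Mem y (v 2)) := by
    show DA (∅ : Set N) (fun v : Fin 3 → N => ∃ y, App (v 0) (v 1) y ∧ Mem y (v 2))
    exact DA.ex (DA.and (DA.app (TA.var _) (TA.var _) (TA.var _)) (DA.mem (TA.var _) (TA.var _)))
  have hk := S.key e h hAut (Fin 3) _ hp ![j, S.pt x, u] ![j, S.pt x', u] (by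
    intro i
    fin_cases i
    · exact Or.inl ⟨rfl, S.sup_mono e2 e _ Finset.subset_union_right he2⟩
    · exact Or.inr ⟨x, rfl, by
        show S.pt x' = S.pt (h x)
        rw [hhx]⟩
    · exact Or.inl ⟨rfl, S.sup_mono e1 e _ Finset.subset_union_left he1⟩)
  obtain ⟨y'', hy'', hyu''⟩ := hk.1 ⟨y, hy, hyu⟩
  change App j (S.pt x') y'' at hy''
  change Mem y'' u at hyu''
  have heq : y'' = y' := (hc.inj.1.2 (S.pt x') ((S.mem_D _).2 ⟨x', rfl⟩)).unique hy'' hy'
  rw [heq] at hyu''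
  exact hdis y' hyv hyu''

end

theorem taskLim : TaskLim := by
  intro U hE hH N _ S k t j hc g hg
  obtain ⟨a, ha⟩ := exists_lim hE S hc hg
  refine ⟨a, fun x hxa => ?_, ha, fun b hb => unique_lim hE hH S hc hg ha hb⟩
  have := S.zf
  obtain ⟨x0, rfl⟩ := (S.mem_D x).1 (app_dom hc.inj.1 hxa).1
  obtain ⟨u, hu, hau, hiso⟩ := hc.disc _ _ hxa
  obtain ⟨h, h1, h2⟩ := exists_diff hE hg x0
  obtain ⟨x, hx, y, hy, hyu⟩ := (ha _ (span_finite {h})).2 u hu hau
  have h3 := hiso _ _ hy hyu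
  subst h3
  have h4 := S.inj (hc.inj.2 _ _ _ hy hxa)
  subst h4
  exact h2 ((hx h (Submodule.subset_span (by simp))).1 h1)

end Pool.Agent.H509R3.Nas
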