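import Pool.Agent.H839R3.Nas.Stmts

/-!
# Definability and finite sets in a model of ZF
-/

namespace Pool.Agent.H509R3.Nas

open FirstOrder FirstOrder.Language
open Pool.Agent.Helper672.Plain (LSet Mem Zermelo IsPair IsOrdPair)
open Pool.Agent.H635Amen (ZF)
open Pool.Agent.H310Cards

universe u

section DA

variable {M : Type u} [LSet.Structure M]

/-- Definability with parameters in `A`. -/
def DA (A : Set M) {ι : Type} (p : (ι → M) → Prop) : Prop := A.Definable LSet {v | p v}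

/-- Terms: variables and parameters. -/
def TA (A : Set M) {ι : Type} (t : (ι → M) → M) : Prop :=
  ∃ τ : LSet[[A]].Term ι, ∀ v, τ.realize v = t v

variable {A : Set M} {ι : Type}

theorem TA.var (i : ι) : TA A (fun v : ι → M => v i) := ⟨Term.var i, fun _ => rfl⟩

theorem TA.const {a : M} (ha : a ∈ A) : TA A (fun _ : ι → M => a) :=
  ⟨(LSet.con (⟨a, ha⟩ : A)).term, fun v => by
    simp [Term.realize_constants]⟩

theorem TA.weak {t : (ι → M) → M} (h : TA A t) :
    TA A (fun w : ι ⊕ Unit → M => t (fun i => w (Sum.inl i))) := by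
  obtain ⟨τ, hτ⟩ := h
  refine ⟨τ.relabel Sum.inl, fun v => ?_⟩
  rw [Term.realize_relabel]
  exact hτ _

theorem DA.not {p : (ι → M) → Prop} (hp : DA A p) : DA A (fun v => ¬ p v) := by
  have h := Set.Definable.compl hp
  exact h

theorem DA.and {p q : (ι → M) → Prop} (hp : DA A p) (hq : DA A q) :
    DA A (fun v => p v ∧ q v) := by
  have h := Set.Definable.inter hp hq
  exact h

theorem DA.or {p q : (ι → M) → Prop} (hp : DA A p) (hq : DA A q) :
    DA A (fun v => p v ∨ q v) := by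
  have h := Set.Definable.union hp hq
  exact h

theorem DA.imp {p q : (ι → M) → Prop} (hp : DA A p) (hq : DA A q) :
    DA A (fun v => p v → q v) := by
  have h := (hp.not).or hq
  refine Eq.mp (congrArg (DA A) ?_) h
  funext v
  exact propext imp_iff_not_or.symm

theorem DA.iff {p q : (ι → M) → Prop} (hp : DA A p) (hq : DA A q) :
    DA A (fun v => (p v ↔ q v)) := by
  have h := (hp.imp hq).and (hq.imp hp)
  refine Eq.mp (congrArg (DA A) ?_) h
  funext v
  exact propext iff_iff_implies_and_implies.symm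

theorem DA.ex {p : (ι → M) → M → Prop}
    (h : DA A (fun w : ι ⊕ Unit → M => p (fun i => w (Sum.inl i)) (w (Sum.inr ())))) :
    DA A (fun v => ∃ x, p v x) := by
  have h1 := Set.Definable.exists_of_finite (β := Unit) h
  refine Eq.mp (congrArg (DA A) ?_) h1
  funext v
  refine propext ⟨fun ⟨a, ha⟩ => ⟨a (), ha⟩, fun ⟨x, hx⟩ => ⟨fun _ => x, hx⟩⟩

theorem DA.all {p : (ι → M) → M → Prop}
    (h : DA A (fun w : ι ⊕ Unit → M => p (fun i => w (Sum.inl i)) (w (Sum.inr ())))) :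
    DA A (fun v => ∀ x, p v x) := by
  have h1 := Set.Definable.forall_of_finite (β := Unit) h
  refine Eq.mp (congrArg (DA A) ?_) h1
  funext v
  refine propext ⟨fun h2 x => h2 fun _ => x, fun h2 a => h2 (a ())⟩

theorem DA.mem {s t : (ι → M) → M} (hs : TA A s) (ht : TA A t) :
    DA A (fun v => Mem (s v) (t v)) := by
  obtain ⟨σ, hσ⟩ := hs
  obtain ⟨τ, hτ⟩ := ht
  refine ⟨Relations.formula₂ (((LSet.lhomWithConstants A).onRelation
    (Pool.Agent.Helper672.Plain.Sym.mem : LSet.Relations 2))) σ τ, ?_⟩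
  ext v
  simp only [Set.mem_ofPred_eq, Formula.realize_rel₂, hσ, hτ]
  rfl

theorem DA.eq {s t : (ι → M) → M} (hs : TA A s) (ht : TA A t) : DA A (fun v => s v = t v) := by
  obtain ⟨σ, hσ⟩ := hs
  obtain ⟨τ, hτ⟩ := ht
  refine ⟨σ.equal τ, ?_⟩
  ext v
  simp only [Set.mem_ofPred_eq, Formula.realize_equal, hσ, hτ]

theorem DA.isPair {r s t : (ι → M) → M} (hr : TA A r) (hs : TA A s) (ht : TA A t) :
    DA A (fun v => IsPair (r v) (s v) (t v)) := by
  show DA A (fun v => ∀ z, Mem z (r v) ↔ z = s v ∨ z = t v)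
  exact DA.all (DA.iff (DA.mem (TA.var _) hr.weak)
    (DA.or (DA.eq (TA.var _) hs.weak) (DA.eq (TA.var _) ht.weak)))

theorem DA.isOrdPair {r s t : (ι → M) → M} (hr : TA A r) (hs : TA A s) (ht : TA A t) :
    DA A (fun v => IsOrdPair (r v) (s v) (t v)) := by
  show DA A (fun v => ∃ x y, IsPair x (s v) (s v) ∧ IsPair y (s v) (t v) ∧ IsPair (r v) x y)
  exact DA.ex (DA.ex (DA.and (DA.isPair (TA.var _) hs.weak.weak hs.weak.weak)
    (DA.and (DA.isPair (TA.var _) hs.weak.weak ht.weak.weak)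
      (DA.isPair hr.weak.weak (TA.var _) (TA.var _)))))

theorem DA.app {r s t : (ι → M) → M} (hr : TA A r) (hs : TA A s) (ht : TA A t) :
    DA A (fun v => App (r v) (s v) (t v)) := by
  show DA A (fun v => ∃ q, IsOrdPair q (s v) (t v) ∧ Mem q (r v))
  exact DA.ex (DA.and (DA.isOrdPair (TA.var _) hs.weak ht.weak) (DA.mem (TA.var _) hr.weak))

theorem DA.isInductive {r : (ι → M) → M} (hr : TA A r) : DA A (fun v => IsInductive (r v)) := by
  show DA A (fun v => (∃ e, Mem e (r v) ∧ ∀ z, ¬ Mem z e) ∧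
    ∀ n, Mem n (r v) → ∃ s, Mem s (r v) ∧ ∀ z, Mem z s ↔ Mem z n ∨ z = n)
  exact DA.and (DA.ex (DA.and (DA.mem (TA.var _) hr.weak)
      (DA.all (DA.not (DA.mem (TA.var _) (TA.var _))))))
    (DA.all (DA.imp (DA.mem (TA.var _) hr.weak) (DA.ex (DA.and (DA.mem (TA.var _) hr.weak.weak)
      (DA.all (DA.iff (DA.mem (TA.var _) (TA.var _)) (DA.or (DA.mem (TA.var _) (TA.var _))
        (DA.eq (TA.var _) (TA.var _)))))))))

theorem DA.isNat {r : (ι → M) → M} (hr : TA A r) : DA A (fun v => IsNat (r v)) := by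
  show DA A (fun v => ∀ i, IsInductive i → Mem (r v) i)
  exact DA.all (DA.imp (DA.isInductive (TA.var _)) (DA.mem hr.weak (TA.var _)))

theorem DA.isFun {r s t : (ι → M) → M} (hr : TA A r) (hs : TA A s) (ht : TA A t) :
    DA A (fun v => IsFun (r v) (s v) (t v)) := by
  show DA A (fun v => (∀ q, Mem q (r v) → ∃ x y, Mem x (s v) ∧ Mem y (t v) ∧ IsOrdPair q x y) ∧
    ∀ x, Mem x (s v) → ∃ y, App (r v) x y ∧ ∀ y', App (r v) x y' → y' = y)
  exact DA.and (DA.all (DA.imp (DA.mem (TA.var _) hr.weak)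
      (DA.ex (DA.ex (DA.and (DA.mem (TA.var _) hs.weak.weak.weak)
        (DA.and (DA.mem (TA.var _) ht.weak.weak.weak)
          (DA.isOrdPair (TA.var _) (TA.var _) (TA.var _))))))))
    (DA.all (DA.imp (DA.mem (TA.var _) hs.weak) (DA.ex (DA.and
      (DA.app hr.weak.weak (TA.var _) (TA.var _))
      (DA.all (DA.imp (DA.app hr.weak.weak.weak (TA.var _) (TA.var _))
        (DA.eq (TA.var _) (TA.var _))))))))

theorem DA.isBij {r s t : (ι → M) → M} (hr : TA A r) (hs : TA A s) (ht : TA A t) :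
    DA A (fun v => IsBij (r v) (s v) (t v)) := by
  show DA A (fun v => (IsFun (r v) (s v) (t v) ∧
    ∀ x x' y, App (r v) x y → App (r v) x' y → x = x') ∧ ∀ y, Mem y (t v) → ∃ x, App (r v) x y)
  exact DA.and (DA.and (DA.isFun hr hs ht) (DA.all (DA.all (DA.all (DA.imp
      (DA.app hr.weak.weak.weak (TA.var _) (TA.var _))
      (DA.imp (DA.app hr.weak.weak.weak (TA.var _) (TA.var _)) (DA.eq (TA.var _) (TA.var _))))))))
    (DA.all (DA.imp (DA.mem (TA.var _) ht.weak) (DA.ex (DA.app hr.weak.weak (TA.var _)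
      (TA.var _)))))

theorem DA.isFinite {r : (ι → M) → M} (hr : TA A r) : DA A (fun v => IsFinite (r v)) := by
  show DA A (fun v => ∃ n f, IsNat n ∧ IsBij f (r v) n)
  exact DA.ex (DA.ex (DA.and (DA.isNat (TA.var _)) (DA.isBij (TA.var _) hr.weak.weak (TA.var _))))

end DA

section Fin

variable {M : Type u} [LSet.Structure M]

/-- Separation in a usable form. -/
theorem sep [hM : Zermelo M] {p : M → Prop} (hp : DA (Set.univ : Set M) (fun v : Fin 1 → M => p (v 0)))
    (x : M) : ∃ y, ∀ z, Mem z y ↔ Mem z x ∧ p z :=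
  hM.separation {z | p z} hp x

theorem ordPair_inj [hM : Zermelo M] {q x y x' y' : M} (h : IsOrdPair q x y)
    (h' : IsOrdPair q x' y') : x = x' ∧ y = y' := by
  obtain ⟨s, d, hs, hd, hq⟩ := h
  obtain ⟨s', d', hs', hd', hq'⟩ := h'
  have e1 : s' = s ∨ s' = d := (hq s').1 ((hq' s').2 (Or.inl rfl))
  have e2 : d' = s ∨ d' = d := (hq d').1 ((hq' d').2 (Or.inr rfl))
  have e3 : s = s' ∨ s = d' := (hq' s).1 ((hq s).2 (Or.inl rfl))
  have e4 : d = s' ∨ d = d' := (hq' d).1 ((hq d).2 (Or.inr rfl))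
  have hx : x = x' := by
    rcases e3 with rfl | rfl
    · have := (hs' x).1 ((hs x).2 (Or.inl rfl))
      rcases this with h | h <;> exact h
    · have := (hs x').1 ((hd' x').2 (Or.inl rfl))
      rcases this with h | h <;> exact h.symm
  subst hx
  refine ⟨rfl, ?_⟩
  have k1 : y = x ∨ y = y' := by
    rcases e4 with rfl | rfl
    · have := (hs' y).1 ((hd y).2 (Or.inr rfl))
      rcases this with h | h <;> exact Or.inl h
    · exact (hd' y).1 ((hd y).2 (Or.inr rfl))
  have k2 : y' = x ∨ y' = y := by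
    rcases e2 with rfl | rfl
    · have := (hs y').1 ((hd' y').2 (Or.inr rfl))
      rcases this with h | h <;> exact Or.inl h
    · exact (hd y').1 ((hd' y').2 (Or.inr rfl))
  rcases k1 with h | h
  · rcases k2 with h' | h'
    · rw [h, h']
    · exact h'.symm
  · exact h

theorem exists_pair [hM : Zermelo M] (x y : M) : ∃ p, IsPair p x y := hM.pairing x y

theorem exists_ordPair [hM : Zermelo M] (x y : M) : ∃ q, IsOrdPair q x y := by
  obtain ⟨s, hs⟩ := exists_pair x x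
  obtain ⟨d, hd⟩ := exists_pair x y
  obtain ⟨q, hq⟩ := exists_pair s d
  exact ⟨q, s, d, hs, hd, hq⟩

/-- adding one element -/
theorem exists_insert [hM : Zermelo M] (x a : M) : ∃ y, ∀ z, Mem z y ↔ Mem z x ∨ z = a := by
  obtain ⟨s, hs⟩ := exists_pair a a
  obtain ⟨d, hd⟩ := exists_pair x s
  obtain ⟨y, hy⟩ := hM.union d
  refine ⟨y, fun z => ?_⟩
  rw [hy]
  constructor
  · rintro ⟨w, hw, hz⟩
    rcases (hd w).1 hw with rfl | rfl
    · exact Or.inl hz
    · rcases (hs z).1 hz with h | h <;> exact Or.inr h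
  · rintro (h | h)
    · exact ⟨x, (hd x).2 (Or.inl rfl), h⟩
    · exact ⟨s, (hd s).2 (Or.inr rfl), (hs z).2 (Or.inl h)⟩

theorem app_insert [hM : Zermelo M] {f f' a n q : M} (hq : IsOrdPair q a n)
    (hf : ∀ z, Mem z f' ↔ Mem z f ∨ z = q) (x y : M) :
    App f' x y ↔ App f x y ∨ (x = a ∧ y = n) := by
  constructor
  · rintro ⟨r, hr, hr'⟩
    rcases (hf r).1 hr' with h | rfl
    · exact Or.inl ⟨r, hr, h⟩
    · exact Or.inr (ordPair_inj hr hq)
  · rintro (⟨r, hr, hr'⟩ | ⟨rfl, rfl⟩)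
    · exact ⟨r, hr, (hf r).2 (Or.inl hr')⟩
    · exact ⟨q, hq, (hf q).2 (Or.inr rfl)⟩

theorem app_dom [hM : Zermelo M] {f a b x y : M} (hf : IsFun f a b) (h : App f x y) :
    Mem x a ∧ Mem y b := by
  obtain ⟨q, hq, hqf⟩ := h
  obtain ⟨x', y', hx', hy', hq'⟩ := hf.1 q hqf
  obtain ⟨rfl, rfl⟩ := ordPair_inj hq hq'
  exact ⟨hx', hy'⟩

theorem isFinite_insert [hM : ZF M] {x y a : M} (hx : IsFinite x) (ha : ¬ Mem a x)
    (hy : ∀ z, Mem z y ↔ Mem z x ∨ z = a) : IsFinite y := by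
  obtain ⟨n, f, hn, hf⟩ := hx
  obtain ⟨m, hm⟩ := exists_insert n n
  obtain ⟨q, hq⟩ := exists_ordPair a n
  obtain ⟨f', hf'⟩ := exists_insert f q
  have happ := app_insert hq hf'
  have hnn : ¬ Mem n n := by
    intro h
    obtain ⟨p, hp⟩ := exists_pair n n
    obtain ⟨w, hw, hw'⟩ := hM.foundation p ⟨n, (hp n).2 (Or.inl rfl)⟩
    have : w = n := by rcases (hp w).1 hw with h | h <;> exact h
    subst this
    exact hw' w hw h
  refine ⟨m, f', ?_, ⟨⟨⟨?_, ?_⟩, ?_⟩, ?_⟩⟩
  · intro i hi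
    obtain ⟨s, hs, hs'⟩ := hi.2 n (hn i hi)
    have : m = s := hM.ext _ _ fun z => by rw [hm, hs']
    rw [this]
    exact hs
  · intro r hr
    rcases (hf' r).1 hr with h | rfl
    · obtain ⟨u, v, hu, hv, huv⟩ := hf.1.1.1 r h
      exact ⟨u, v, (hy u).2 (Or.inl hu), (hm v).2 (Or.inl hv), huv⟩
    · exact ⟨a, n, (hy a).2 (Or.inr rfl), (hm n).2 (Or.inr rfl), hq⟩
  · intro u hu
    rcases (hy u).1 hu with h | rfl
    · obtain ⟨v, hv, hv'⟩ := hf.1.1.2 u h
      refine ⟨v, (happ u v).2 (Or.inl hv), fun v' h' => ?_⟩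
      rcases (happ u v').1 h' with h1 | ⟨rfl, _⟩
      · exact hv' v' h1
      · exact absurd h ha
    · refine ⟨n, (happ u n).2 (Or.inr ⟨rfl, rfl⟩), fun v' h' => ?_⟩
      rcases (happ u v').1 h' with h1 | ⟨_, h1⟩
      · exact absurd (app_dom hf.1.1 h1).1 ha
      · exact h1
  · intro u u' v h h'
    rcases (happ u v).1 h with h1 | ⟨h1, h2⟩
    · rcases (happ u' v).1 h' with h3 | ⟨h3, h4⟩
      · exact hf.1.2 u u' v h1 h3
      · subst h4
        exact absurd (app_dom hf.1.1 h1).2 hnn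
    · rcases (happ u' v).1 h' with h3 | ⟨h3, h4⟩
      · subst h2
        exact absurd (app_dom hf.1.1 h3).2 hnn
      · rw [h1, h3]
  · intro v hv
    rcases (hm v).1 hv with h | rfl
    · obtain ⟨u, hu⟩ := hf.2 v h
      exact ⟨u, (happ u v).2 (Or.inl hu)⟩
    · exact ⟨a, (happ a v).2 (Or.inr ⟨rfl, rfl⟩)⟩

theorem isFinite_empty [hM : ZF M] {x : M} (hx : ∀ z, ¬ Mem z x) : IsFinite x := by
  refine ⟨x, x, fun i hi => ?_, ⟨⟨⟨fun q hq => absurd hq (hx q), fun z hz => absurd hz (hx z)⟩,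
    fun u u' v h => ?_⟩, fun v hv => absurd hv (hx v)⟩⟩
  · obtain ⟨e, he, he'⟩ := hi.1
    have : x = e := hM.ext _ _ fun z => iff_of_false (hx z) (he' z)
    rw [this]
    exact he
  · obtain ⟨q, _, hq⟩ := h
    exact absurd hq (hx q)

/-- Every finite family of elements of the model is a finite set of the model. -/
theorem exists_finset [hM : ZF M] (X : Finset M) : ∃ b : M, (∀ z, Mem z b ↔ z ∈ X) ∧ IsFinite b := by
  classical
  induction X using Finset.induction_on with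
  | empty =>
    obtain ⟨i, ⟨e, _, he⟩, _⟩ := hM.infinity
    exact ⟨e, fun z => by simp [he z], isFinite_empty he⟩
  | insert a X ha ih =>
    obtain ⟨b, hb, hb'⟩ := ih
    obtain ⟨y, hy⟩ := exists_insert b a
    refine ⟨y, fun z => ?_, isFinite_insert hb' (fun h => ha ((hb a).1 h)) hy⟩
    rw [hy, hb, Finset.mem_insert, or_comm]

end Fin

end Pool.Agent.H509R3.Nas
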